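import Pool.Agent.H78.SemiringFB

/-! If a semiring `S` is finitely based, then so is `S ∪ {∞}`. -/

namespace Pool.Agent.Results.MP_cd9307_al.FinBased

open Pool.Agent.H78.SR

universe u

theorem result (S : Type u) [Nonempty S] [AddCommSemigroup S] [Semigroup S]
    [LeftDistribClass S] [RightDistribClass S] (h : FinitelyBased S) :
    FinitelyBased (Ext S) :=
  main h

end Pool.Agent.Results.MP_cd9307_al.FinBased
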